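import Pool.Agent.R652.CA.Main
import Pool.Agent.R652.CA.App
import Pool.Agent.R652.CA.Bim1
import Pool.Agent.R652.CA.Bim2
import Pool.Agent.R652.CA.Blk
import Pool.Agent.R652.CA.Can
import Pool.Agent.R652.CA.Comp
import Pool.Agent.R652.CA.Ctr
import Pool.Agent.R652.CA.Dg
import Pool.Agent.R652.CA.Down
import Pool.Agent.R652.CA.Exp
import Pool.Agent.R652.CA.Gen
import Pool.Agent.R652.CA.Inj
import Pool.Agent.R652.CA.R
import Pool.Agent.R652.CA.TI
import Pool.Agent.R652.CA.Test
import Pool.Agent.R652.CA.Tm
import Pool.Agent.R652.CA.Trim
import Pool.Agent.R652.CA.Ug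
import Pool.Agent.R652.CA.Uni
import Pool.Agent.R652.CA.Up
import Pool.Agent.R652.CA.Upm
import Pool.Agent.R652.CA.Valid
import Pool.Agent.R652.CA.Z

/-!
# MP_1173fd_al, Q1: `Z_2 wr F_2` is Cayley position-faithful one-tape linear-time computable

All definitions used in the statement are in `Pool.Agent.R652.CA.Defs` (`Machine`, `Cfg`,
`LinTime`) and `Pool.Agent.R652.CA.Grp` (`F2`, `act`, `G`, `CayleyLinear`).
-/

namespace Pool.Agent.Results.MP_1173fd_al.OneTapeLinear

open Pool.Agent.R652.CA

/-- **Q1: yes.** The restricted wreath product `G = Z_2 wr F_2` is Cayley position-faithful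
(one-tape) linear-time computable, with respect to every set `Sg` of elements of `G`
(in particular every finite set of semigroup generators; `Sg = G` is allowed too). -/
theorem result : ∀ Sg : Set G, CayleyLinear G Sg := by
  have hblk : StmBlk := blk_thm up down
  have hr : StmR := r_thm bim_map bim_comp bim_zip bim_ctx bim_pad hblk zero_thm
  have happ : StmApp := app_thm bim_L b0_thm
  have htrim : StmTrim := trim_thm bim_map bim_comp bim_ctx bim_L bim_R
  have hd : StmDownMove := down_move bim_L valid_thm out_thm put_thm
  have hu : StmUpMove := up_move bim_L valid_thm out_thm put_thm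
  have hex : StmExpand := expand bim_L block_thm tail_thm put_thm valid_thm out_thm
  have hco : StmContract := contract bim_R block_thm tail_thm put_thm valid_thm out_thm
  have htl : StmTestLeaf := test_leaf block_thm tail_thm put_thm out_thm
  have htb : StmTestBud := test_bud block_thm tail_thm put_thm out_thm
  have hla : StmTestLast := test_last block_thm tail_thm put_thm out_thm
  have ht : StmToggle := toggle bim_map block_thm tail_thm put_thm valid_thm out_thm
  exact main_of bim_map (uni_comp bim_comp) (uni_ite bim_ite) hr happ htrim hd hu hex hco htl htb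
    hla ht can_node (inj fin_thm) (downG fin_thm) (upG fin_thm) (toggleG fin_thm) can1 genG
    tm_thm tape_inj

end Pool.Agent.Results.MP_1173fd_al.OneTapeLinear
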